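import Mathlib
import Pool.Agent.H161R2.EvasPerm

set_option autoImplicit false

/-!
# Almost all monotone functions invariant under a permutation group are evasive

`numFun Γ` is the number of monotone `Γ`-invariant Boolean functions of `n` variables and
`numFunNonEvasive Γ` the number of those which have a decision tree of depth `< n`.
-/

namespace Pool.Agent.Results.MP_d4e2f9_lc.AlmostAllPerm

open Filter Pool.Agent.H161R2.Evas

/-- For every permutation group `Γ` of `n` variables (in particular for every transitive one) the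
proportion of non-evasive functions among all monotone `Γ`-invariant functions is at most
`(2 (n+2)^5 |Γ| / 2^n)^(1/2)`, hence at most `2^(-δ n / 3)` if `|Γ| ≤ 2^((1-δ) n)` and `n` is
large in terms of `δ`. -/
theorem result :
    (∀ (n : ℕ) (Γ : Subgroup (Equiv.Perm (Fin n))), (numFunNonEvasive Γ : ℝ) ^ 2 * 2 ^ n ≤
      2 * ((n : ℝ) + 2) ^ 5 * Nat.card Γ * (numFun Γ : ℝ) ^ 2) ∧
    (∀ δ : ℝ, 0 < δ → ∀ᶠ n : ℕ in atTop, ∀ Γ : Subgroup (Equiv.Perm (Fin n)),
      (Nat.card Γ : ℝ) ≤ (2 : ℝ) ^ ((1 - δ) * (n : ℝ)) →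
        (numFunNonEvasive Γ : ℝ) ≤ (2 : ℝ) ^ (-(δ / 3) * (n : ℝ)) * numFun Γ) :=
  ⟨perm_bound, perm_asym⟩

end Pool.Agent.Results.MP_d4e2f9_lc.AlmostAllPerm
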